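import Mathlib
import Pool.Agent.H1.CM.Targets2

/-!
# Module JAC: the Jacobian minors have no common zero
-/

namespace Pool.Agent.H1.CM

namespace JAC

section field

variable {k F : Type} [CommRing k] [Field F] (κ : k →+* F) (T : Fin 4 → F)

/-- The hypotheses at a point. -/
def Bad (r : Fin 3) : Prop :=
  MvPolynomial.eval₂ κ T (G1 k r) = 0 ∧ MvPolynomial.eval₂ κ T (G2 k r) = 0 ∧
    ∀ i j : Fin 4, MvPolynomial.eval₂ κ T (minor k r i j) = 0

lemma bad_two (h2 : (2 : F) = 0) (h : Bad κ T 2) : False := by
  obtain ⟨g1, g2, m⟩ := h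
  have h3 : (3 : F) = 1 := by linear_combination h2
  have h5 : (5 : F) = 1 := by linear_combination 2 * h2
  have h10 : (10 : F) = 0 := by linear_combination 5 * h2
  generalize hx : T 0 = x at *
  generalize hy : T 1 = y at *
  generalize hN : T 2 = N at *
  generalize hw : T 3 = w at *
  simp [G1, hx, hy, hN] at g1
  simp [G2, hx, hy, hN, hw] at g2
  have m23 := m 2 3
  have m03 := m 0 3
  have m13 := m 1 3
  have m02 := m 0 2
  have m12 := m 1 2
  have m01 := m 0 1
  simp [minor, G1, G2, Derivation.leibniz, Derivation.leibniz_pow, MvPolynomial.pderiv_X,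
    hx, hy, hN, hw, h2, h3, h5, h10] at m23 m03 m13 m02 m12 m01
  by_cases hb : x ^ 5 + y ^ 5 = 0
  · by_cases hxy : x = 0 ∨ y = 0
    · have hx0 : x = 0 := by
        rcases hxy with h | h
        · exact h
        · rw [h] at hb
          have : x ^ 5 = 0 := by linear_combination hb
          exact pow_eq_zero_iff (by norm_num) |>.mp this
      have hy0 : y = 0 := by
        rw [hx0] at hb
        have : y ^ 5 = 0 := by linear_combination hb
        exact pow_eq_zero_iff (by norm_num) |>.mp this
      rw [hx0, hy0] at m01 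
      apply one_ne_zero (α := F)
      linear_combination -m01
    · have hx0 : x ≠ 0 := fun h => hxy (Or.inl h)
      have hy0 : y ≠ 0 := fun h => hxy (Or.inr h)
      have e1 := m02.resolve_left hxy
      have e2 := m12.resolve_left hxy
      have e3 : y ^ 2 * (w * y ^ 2 + N ^ 2 * x ^ 3) = 0 := by linear_combination e2
      have e4 : w * y ^ 2 + N ^ 2 * x ^ 3 = 0 :=
        (mul_eq_zero.mp e3).resolve_left (pow_ne_zero 2 hy0)
      apply hy0
      apply pow_eq_zero_iff (n := 2) (by norm_num) |>.mp
      linear_combination y ^ 2 * e1 - x ^ 4 * e4 + x ^ 2 * N ^ 2 * hb - x ^ 2 * N ^ 2 * y ^ 5 * h2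
  · have hxy := m23.resolve_right hb
    have e1 := m03.resolve_right hb
    have e2 := m13.resolve_right hb
    rcases hxy with h | h
    · rw [h] at e1 e2 g1
      have hN2 : N ^ 2 = 0 := by linear_combination g1 - y * e2
      have hN0 : N = 0 := pow_eq_zero_iff (by norm_num) |>.mp hN2
      rw [hN0] at e1
      apply one_ne_zero (α := F)
      linear_combination e1
    · rw [h] at e1 e2 g1
      have hN2 : N ^ 2 = 0 := by linear_combination g1 - x * e1
      have hN0 : N = 0 := pow_eq_zero_iff (by norm_num) |>.mp hN2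
      rw [hN0] at e2
      apply one_ne_zero (α := F)
      linear_combination e2

lemma bad_zero (h2 : (2 : F) = 0) (h : Bad κ T 0) : False := by
  obtain ⟨g1, g2, m⟩ := h
  have h3 : (3 : F) = 1 := by linear_combination h2
  have h5 : (5 : F) = 1 := by linear_combination 2 * h2
  have h9 : (9 : F) = 1 := by linear_combination 4 * h2
  generalize hx : T 0 = y at *
  generalize hy : T 1 = z at *
  generalize hN : T 2 = N at *
  generalize hw : T 3 = w at *
  simp [G1, hx, hy, hN] at g1
  simp [G2, hx, hy, hN, hw] at g2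
  have m23 := m 2 3
  have m03 := m 0 3
  have m13 := m 1 3
  have m02 := m 0 2
  have m12 := m 1 2
  simp [minor, G1, G2, Derivation.leibniz, Derivation.leibniz_pow, MvPolynomial.pderiv_X,
    hx, hy, hN, hw, h2, h3, h5, h9] at m23 m03 m13 m02 m12
  by_cases hb : 1 + y ^ 5 = 0
  · have hy0 : y ≠ 0 := by
      intro h
      rw [h] at hb
      apply one_ne_zero (α := F)
      linear_combination hb
    have hz0 : z = 0 := m12.resolve_left hy0
    have e1 := m02.resolve_left hy0
    have e2 : y ^ 2 * (w * y ^ 2 + N ^ 2) = 0 := by linear_combination e1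
    have e3 : w * y ^ 2 + N ^ 2 = 0 := (mul_eq_zero.mp e2).resolve_left (pow_ne_zero 2 hy0)
    rw [hz0] at g1 g2
    have e4 : N * (N + y) = 0 := by linear_combination g1
    rcases mul_eq_zero.mp e4 with h | h
    · rw [h] at e3 g2
      have e5 : w * y ^ 2 = 0 := by linear_combination e3
      have e6 : w = 0 := (mul_eq_zero.mp e5).resolve_right (pow_ne_zero 2 hy0)
      rw [e6] at g2
      apply one_ne_zero (α := F)
      linear_combination g2
    · have hN' : N = -y := by linear_combination h
      rw [hN'] at e3 g2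
      have e5 : (w + 1) * y ^ 2 = 0 := by linear_combination e3
      have e6 : w + 1 = 0 := (mul_eq_zero.mp e5).resolve_right (pow_ne_zero 2 hy0)
      have e7 : w = -1 := by linear_combination e6
      rw [e7] at g2
      apply one_ne_zero (α := F)
      linear_combination g2
  · have hy0 := m23.resolve_right hb
    have e1 := m03.resolve_right hb
    have e2 := m13.resolve_right hb
    rw [hy0] at e1 e2 g1
    have hN2 : N ^ 2 = 0 := by linear_combination g1 - z * e2
    have hN0 : N = 0 := pow_eq_zero_iff (by norm_num) |>.mp hN2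
    rw [hN0] at e1
    have hz3 : z ^ 3 = 0 := by linear_combination e1
    have hz0 : z = 0 := pow_eq_zero_iff (by norm_num) |>.mp hz3
    rw [hz0] at e2
    apply one_ne_zero (α := F)
    linear_combination e2

lemma bad_one (h2 : (2 : F) = 0) (h : Bad κ T 1) : False := by
  obtain ⟨g1, g2, m⟩ := h
  have h3 : (3 : F) = 1 := by linear_combination h2
  have h5 : (5 : F) = 1 := by linear_combination 2 * h2
  have h9 : (9 : F) = 1 := by linear_combination 4 * h2
  have h10 : (10 : F) = 0 := by linear_combination 5 * h2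
  generalize hx : T 0 = x at *
  generalize hy : T 1 = z at *
  generalize hN : T 2 = N at *
  generalize hw : T 3 = w at *
  simp [G1, hx, hy, hN] at g1
  simp [G2, hx, hy, hN, hw] at g2
  have m23 := m 2 3
  have m03 := m 0 3
  have m13 := m 1 3
  have m02 := m 0 2
  have m12 := m 1 2
  simp [minor, G1, G2, Derivation.leibniz, Derivation.leibniz_pow, MvPolynomial.pderiv_X,
    hx, hy, hN, hw, h2, h3, h5, h9, h10] at m23 m03 m13 m02 m12
  by_cases hb : x ^ 5 + 1 = 0
  · have hx0 : x ≠ 0 := by
      intro h
      rw [h] at hb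
      apply one_ne_zero (α := F)
      linear_combination hb
    have hz0 : z = 0 := m12.resolve_left hx0
    have e1 := m02.resolve_left hx0
    rw [hz0] at e1
    have e2 : x ^ 2 * (w * x ^ 2 + N ^ 2) = 0 := by linear_combination e1
    have e3 : w * x ^ 2 + N ^ 2 = 0 := (mul_eq_zero.mp e2).resolve_left (pow_ne_zero 2 hx0)
    rw [hz0] at g1 g2
    have e4 : N * (N + x) = 0 := by linear_combination g1
    rcases mul_eq_zero.mp e4 with h | h
    · rw [h] at e3 g2
      have e5 : w * x ^ 2 = 0 := by linear_combination e3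
      have e6 : w = 0 := (mul_eq_zero.mp e5).resolve_right (pow_ne_zero 2 hx0)
      rw [e6] at g2
      have e7 : x ^ 10 = 0 := by linear_combination g2
      exact hx0 (pow_eq_zero_iff (by norm_num) |>.mp e7)
    · have hN' : N = -x := by linear_combination h
      rw [hN'] at e3 g2
      have e5 : (w + 1) * x ^ 2 = 0 := by linear_combination e3
      have e6 : w + 1 = 0 := (mul_eq_zero.mp e5).resolve_right (pow_ne_zero 2 hx0)
      have e7 : w = -1 := by linear_combination e6
      rw [e7] at g2
      apply one_ne_zero (α := F)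
      linear_combination g2 + (1 - x ^ 5) * hb
  · have hx0 := m23.resolve_right hb
    have e1 := m03.resolve_right hb
    have e2 := m13.resolve_right hb
    rw [hx0] at e1 e2 g1
    have hN2 : N ^ 2 = 0 := by linear_combination g1 - z * e2
    have hN0 : N = 0 := pow_eq_zero_iff (by norm_num) |>.mp hN2
    rw [hN0] at e1
    have hz3 : z ^ 3 = 0 := by linear_combination e1
    have hz0 : z = 0 := pow_eq_zero_iff (by norm_num) |>.mp hz3
    rw [hz0] at e2
    apply one_ne_zero (α := F)
    linear_combination e2

end field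

end JAC

/-- The Jacobian minors have no common zero. -/
theorem jac : T_JAC := by
  intro k R _ _ ι h2 r T h1 h1' 
  by_contra hne
  obtain ⟨M, hM, hle⟩ := Ideal.exists_le_maximal _ hne
  let : Field (R ⧸ M) := Ideal.Quotient.field M
  have hev : ∀ p : MvPolynomial (Fin 4) k,
      MvPolynomial.eval₂ ((Ideal.Quotient.mk M).comp ι) (fun i => Ideal.Quotient.mk M (T i)) p
        = Ideal.Quotient.mk M (MvPolynomial.eval₂ ι T p) := fun p =>
    (MvPolynomial.hom_eval₂ p ι (Ideal.Quotient.mk M) T).symm
  have h2' : (2 : R ⧸ M) = 0 := by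
    have h3 : (Ideal.Quotient.mk M) (ι 2) = 0 := by rw [h2, map_zero, map_zero]
    rw [map_ofNat, map_ofNat] at h3
    exact h3
  have hbad : JAC.Bad ((Ideal.Quotient.mk M).comp ι) (fun i => Ideal.Quotient.mk M (T i)) r := by
    refine ⟨by rw [hev, h1, map_zero], by rw [hev, h1', map_zero], fun i j => ?_⟩
    rw [hev, Ideal.Quotient.eq_zero_iff_mem]
    exact hle (Ideal.subset_span ⟨(i, j), rfl⟩)
  fin_cases r
  · exact JAC.bad_zero _ _ h2' hbad
  · exact JAC.bad_one _ _ h2' hbad
  · exact JAC.bad_two _ _ h2' hbad

end Pool.Agent.H1.CM
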