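import Mathlib
import Pool.Agent.H1.CM.Targets1

/-!
# Module PX: the map to the projective plane extends
-/

namespace Pool.Agent.H1.CM

open IsLocalRing

namespace PX

/-! ## Coordinates on the special fibre -/

section coords

variable {k C₀ : Type} [Field k] [CommRing C₀] {ι₀ : k →+* C₀} {q₀ : Quad C₀}

/-- The coordinates of an element. -/
noncomputable def co (hb : Function.Bijective (comb ι₀ q₀.mon)) (c : C₀) : Idx →₀ k :=
  (Equiv.ofBijective _ hb).symm c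

lemma comb_co (hb : Function.Bijective (comb ι₀ q₀.mon)) (c : C₀) :
    comb ι₀ q₀.mon (co hb c) = c :=
  (Equiv.ofBijective _ hb).apply_symm_apply c

lemma co_eq (hb : Function.Bijective (comb ι₀ q₀.mon)) {c : C₀} {g : Idx →₀ k}
    (h : comb ι₀ q₀.mon g = c) : co hb c = g :=
  hb.1 ((comb_co hb c).trans h.symm)

lemma co_add (hb : Function.Bijective (comb ι₀ q₀.mon)) (c d : C₀) :
    co hb (c + d) = co hb c + co hb d :=
  co_eq hb (by rw [comb_add, comb_co, comb_co])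

lemma co_sub (hb : Function.Bijective (comb ι₀ q₀.mon)) (c d : C₀) :
    co hb (c - d) = co hb c - co hb d :=
  co_eq hb (by rw [comb_sub, comb_co, comb_co])

lemma co_zero (hb : Function.Bijective (comb ι₀ q₀.mon)) :
    co hb 0 = 0 :=
  co_eq hb (by rw [comb_zero])

/-- The shift of the exponents. -/
def sh (i j : ℤ) : Fin 3 → ℤ := ![i, j, -i - j]

lemma expo_shift (s : Idx) (i j : ℤ) (r : Fin 3) :
    expo (s.1 + i, s.2.1 + j, s.2.2) r = expo s r + sh i j r := by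
  fin_cases r <;> simp [expo, sh]
  ring

lemma inSpan_shift_iff (hb : Function.Bijective (comb ι₀ q₀.mon)) (S : Finset (Fin 3))
    (i j : ℤ) (h : C₀) :
    InSpan ι₀ q₀.mon (reg S) (((q₀.X ^ i : C₀ˣ) : C₀) * ((q₀.Y ^ j : C₀ˣ) : C₀) * h) ↔
      ∀ s r, r ∉ S → expo s r + sh i j r < 0 → co hb h s = 0 := by
  constructor
  · intro hs
    have h1 := InSpan.shift (R' := {s | ((s.1 + i, s.2.1 + j, s.2.2) : Idx) ∈ reg S})
      (-i) (-j) (by
        intro s hs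
        simp only [Set.mem_ofPred_eq, neg_add_cancel_right]
        exact hs) hs
    have h2 : ((q₀.X ^ (-i) : C₀ˣ) : C₀) * ((q₀.Y ^ (-j) : C₀ˣ) : C₀) *
        (((q₀.X ^ i : C₀ˣ) : C₀) * ((q₀.Y ^ j : C₀ˣ) : C₀) * h) = h := by
      have e1 : ((q₀.X ^ (-i) : C₀ˣ) : C₀) * ((q₀.X ^ i : C₀ˣ) : C₀) = 1 := by
        rw [← Units.val_mul, ← zpow_add, neg_add_cancel, zpow_zero, Units.val_one]
      have e2 : ((q₀.Y ^ (-j) : C₀ˣ) : C₀) * ((q₀.Y ^ j : C₀ˣ) : C₀) = 1 := by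
        rw [← Units.val_mul, ← zpow_add, neg_add_cancel, zpow_zero, Units.val_one]
      linear_combination (((q₀.Y ^ (-j) : C₀ˣ) : C₀) * ((q₀.Y ^ j : C₀ˣ) : C₀) * h) * e1
        + h * e2
    rw [h2] at h1
    obtain ⟨g, hg, hc⟩ := h1
    intro s r hr hlt
    rw [co_eq hb hc.symm]
    by_contra hne
    have h3 := hg s (Finsupp.mem_support_iff.mpr hne)
    have h4 := h3 r hr
    rw [expo_shift] at h4
    omega
  · intro hs
    refine InSpan.shift (R := {s | ((s.1 + i, s.2.1 + j, s.2.2) : Idx) ∈ reg S}) i j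
      (fun s hs => hs) ⟨co hb h, ?_, (comb_co hb h).symm⟩
    intro s hs' r hr
    rw [expo_shift]
    by_contra hlt
    exact (Finsupp.mem_support_iff.mp hs') (hs s r hr (not_le.mp hlt))

end coords

/-! ## Small extensions -/

section small

variable {A k C C₀ : Type} [CommRing A] [IsLocalRing A] [IsArtinianRing A] [Field k]
  [CommRing C] [CommRing C₀] {π : A →+* k} {ι : A →+* C} {B : Finset (Fin 3) → Subring C}
  {ι₀ : k →+* C₀} {q₀ : Quad C₀} {ρ : C →+* C₀}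

/-- Membership modulo an ideal. -/
def MJ (ι : A →+* C) (B : Finset (Fin 3) → Subring C) (J : Ideal A) (S : Finset (Fin 3))
    (c : C) : Prop := ∃ b ∈ B S, c - b ∈ Ideal.map ι J

/-- `c = b + t g` modulo `J` with `b` in `B S`. -/
def EE (ι : A →+* C) (B : Finset (Fin 3) → Subring C) (J : Ideal A) (t : A)
    (S : Finset (Fin 3)) (c g : C) : Prop := ∃ b ∈ B S, c - b - ι t * g ∈ Ideal.map ι J

/-- The induction statement. -/
def QQ (ι : A →+* C) (B : Finset (Fin 3) → Subring C) (q₀ : Quad C₀) (ρ : C →+* C₀)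
    (J : Ideal A) : Prop :=
  ∃ X Y : Cˣ, ρ X = q₀.X ∧ ρ Y = q₀.Y ∧ MJ ι B J {2} X ∧ MJ ι B J {2} Y ∧
    MJ ι B J {0} ((X⁻¹ : Cˣ) : C) ∧ MJ ι B J {0} ((Y : C) * ((X⁻¹ : Cˣ) : C)) ∧
    MJ ι B J {1} ((Y⁻¹ : Cˣ) : C) ∧ MJ ι B J {1} ((X : C) * ((Y⁻¹ : Cˣ) : C))

omit [IsLocalRing A] [IsArtinianRing A] in
lemma iota_mem (h : Ctx π ι B ι₀ q₀ ρ) {S : Finset (Fin 3)} (hS : S.Nonempty) (a : A) {b : C}
    (hb : b ∈ B S) : ι a * b ∈ B S := by
  obtain ⟨β, hβ, _⟩ := h.basis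
  rw [hβ.mem S hS] at hb ⊢
  exact InSpan.smul a hb

lemma MJ_max (h : Ctx π ι B ι₀ q₀ ρ) (hred : T_RED) {S : Finset (Fin 3)} (hS : S.Nonempty)
    {c : C} (hc : InSpan ι₀ q₀.mon (reg S) (ρ c)) : MJ ι B (maximalIdeal A) S c := by
  obtain ⟨-, -, r3, r4, -, -⟩ := hred π ι B ι₀ q₀ ρ h
  obtain ⟨b, hb, hbc⟩ := r3 S hS _ hc
  refine ⟨b, hb, (r4 _).mp ?_⟩
  rw [map_sub, hbc, sub_self]

lemma EE_of_MJ (h : Ctx π ι B ι₀ q₀ ρ) (hredt : T_REDT) {J : Ideal A} {t : A}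
    (hJ : J ≤ maximalIdeal A) (ht : t ∈ maximalIdeal A) (htJ : t ∉ J)
    (hm : ∀ m ∈ maximalIdeal A, m * t ∈ J) {S : Finset (Fin 3)} {c : C}
    (hc : MJ ι B (J ⊔ Ideal.span {t}) S c) : ∃ g, EE ι B J t S c g := by
  obtain ⟨b, hb, hcb⟩ := hc
  obtain ⟨-, -, r3⟩ := hredt π ι B ι₀ q₀ ρ h J t hJ ht htJ hm
  obtain ⟨g, hg⟩ := r3 _ hcb
  exact ⟨g, b, hb, hg⟩

/-- Reduction of the relation. -/
lemma rho_of_mem (h : Ctx π ι B ι₀ q₀ ρ) (hred : T_RED) {J : Ideal A}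
    (hJ : J ≤ maximalIdeal A) {c : C} (hc : c ∈ Ideal.map ι J) : ρ c = 0 := by
  obtain ⟨-, -, -, r4, -, -⟩ := hred π ι B ι₀ q₀ ρ h
  exact (r4 c).mpr (Ideal.map_mono hJ hc)

lemma rho_t (h : Ctx π ι B ι₀ q₀ ρ) (hred : T_RED) {t : A} (ht : t ∈ maximalIdeal A) :
    ρ (ι t) = 0 := by
  obtain ⟨-, -, -, r4, -, -⟩ := hred π ι B ι₀ q₀ ρ h
  exact (r4 _).mpr (Ideal.mem_map_of_mem ι ht)

lemma rho_b (h : Ctx π ι B ι₀ q₀ ρ) (hred : T_RED) {J : Ideal A} {t : A}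
    (hJ : J ≤ maximalIdeal A) (ht : t ∈ maximalIdeal A) {b c g : C}
    (hc : c - b - ι t * g ∈ Ideal.map ι J) : ρ b = ρ c := by
  have h1 := rho_of_mem h hred hJ hc
  rw [map_sub, map_sub, map_mul, rho_t h hred ht, zero_mul, sub_zero, sub_eq_zero] at h1
  exact h1.symm

/-- The key lemma for the correction. -/
lemma MJ_mul (h : Ctx π ι B ι₀ q₀ ρ) (hred : T_RED) (hredt : T_REDT) {J : Ideal A} {t : A}
    (hJ : J ≤ maximalIdeal A) (ht : t ∈ maximalIdeal A) (htJ : t ∉ J)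
    (hm : ∀ m ∈ maximalIdeal A, m * t ∈ J) {S : Finset (Fin 3)} (hS : S.Nonempty)
    {c g m δ : C} (hc : EE ι B J t S c g) (hmd : m - (1 + ι t * δ) ∈ Ideal.map ι J)
    (hsp : InSpan ι₀ q₀.mon (reg S) (ρ g + ρ c * ρ δ)) : MJ ι B J S (c * m) := by
  obtain ⟨-, -, r3, -, -, -⟩ := hred π ι B ι₀ q₀ ρ h
  obtain ⟨t1, -, -⟩ := hredt π ι B ι₀ q₀ ρ h J t hJ ht htJ hm
  obtain ⟨b, hb, hcb⟩ := hc
  obtain ⟨b', hb', hbr⟩ := r3 S hS _ hsp
  have h1 : ι t * (g + c * δ - b') ∈ Ideal.map ι J := by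
    rw [t1, map_sub, hbr, map_add, map_mul, sub_self]
  refine ⟨b + ι t * b', (B S).add_mem hb (iota_mem h hS t hb'), ?_⟩
  have h2 : c * m - (b + ι t * b') = (c - b - ι t * g) + ι t * (g + c * δ - b')
      + c * (m - (1 + ι t * δ)) := by ring
  rw [h2]
  exact Ideal.add_mem _ (Ideal.add_mem _ hcb h1) (Ideal.mul_mem_left _ _ hmd)

/-- The overlap relations. -/
lemma overlap (h : Ctx π ι B ι₀ q₀ ρ) (hred : T_RED) (hredt : T_REDT) {J : Ideal A} {t : A}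
    (hJ : J ≤ maximalIdeal A) (ht : t ∈ maximalIdeal A) (htJ : t ∉ J)
    (hm : ∀ m ∈ maximalIdeal A, m * t ∈ J) {S S₁ S₂ S₃ : Finset (Fin 3)} (h1 : S₁.Nonempty)
    (h2 : S₂.Nonempty) (h3 : S₃.Nonempty) (hs1 : S₁ ⊆ S) (hs2 : S₂ ⊆ S) (hs3 : S₃ ⊆ S)
    {c₁ c₂ c₃ g₁ g₂ g₃ : C} (e1 : EE ι B J t S₁ c₁ g₁) (e2 : EE ι B J t S₂ c₂ g₂)
    (e3 : EE ι B J t S₃ c₃ g₃) (hc : c₁ * c₂ = c₃) :
    InSpan ι₀ q₀.mon (reg S) (ρ g₁ * ρ c₂ + ρ g₂ * ρ c₁ - ρ g₃) := by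
  obtain ⟨-, t2, -⟩ := hredt π ι B ι₀ q₀ ρ h J t hJ ht htJ hm
  obtain ⟨b₁, hb1, hc1⟩ := e1
  obtain ⟨b₂, hb2, hc2⟩ := e2
  obtain ⟨b₃, hb3, hc3⟩ := e3
  have hm1 : b₃ - b₁ * b₂ ∈ B S :=
    (B S).sub_mem (h.mono S₃ S h3 hs3 hb3)
      ((B S).mul_mem (h.mono S₁ S h1 hs1 hb1) (h.mono S₂ S h2 hs2 hb2))
  have htt : ι t * ι t ∈ Ideal.map ι J := by
    rw [← map_mul]
    exact Ideal.mem_map_of_mem ι (hm t ht)
  have hS : S.Nonempty := h1.mono hs1
  have key := t2 S hS _ hm1 (g₁ * b₂ + g₂ * b₁ - g₃) (by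
    have e : b₃ - b₁ * b₂ - ι t * (g₁ * b₂ + g₂ * b₁ - g₃)
        = -(c₃ - b₃ - ι t * g₃) + (c₁ - b₁ - ι t * g₁) * c₂
          + (b₁ + ι t * g₁) * (c₂ - b₂ - ι t * g₂) + (g₁ * g₂) * (ι t * ι t) := by
      rw [← hc]
      ring
    rw [e]
    refine Ideal.add_mem _ (Ideal.add_mem _ (Ideal.add_mem _ ?_ ?_) ?_) ?_
    · exact neg_mem hc3
    · exact Ideal.mul_mem_right _ _ hc1
    · exact Ideal.mul_mem_left _ _ hc2
    · exact Ideal.mul_mem_left _ _ htt)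
  rw [map_sub, map_add, map_mul, map_mul, rho_b h hred hJ ht hc1, rho_b h hred hJ ht hc2] at key
  exact key

end small

/-! ## The linear algebra on the special fibre -/

section solve

variable {k C₀ : Type} [Field k] [CommRing C₀] {ι₀ : k →+* C₀} {q₀ : Quad C₀}

lemma isi (hb : Function.Bijective (comb ι₀ q₀.mon)) (S : Finset (Fin 3))
    (i j : ℤ) {h c : C₀} (hc : ((q₀.X ^ i : C₀ˣ) : C₀) * ((q₀.Y ^ j : C₀ˣ) : C₀) * h = c) :
    InSpan ι₀ q₀.mon (reg S) c ↔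
      ∀ s r, r ∉ S → expo s r + sh i j r < 0 → co hb h s = 0 := by
  rw [← hc]
  exact inSpan_shift_iff hb S i j h

lemma solve (hb : Function.Bijective (comb ι₀ q₀.mon)) (htv : T_TV) {x y xi yi : C₀}
    (hx : x = (q₀.X : C₀)) (hy : y = (q₀.Y : C₀)) (hxi : xi = ((q₀.X⁻¹ : C₀ˣ) : C₀))
    (hyi : yi = ((q₀.Y⁻¹ : C₀ˣ) : C₀)) {G1 G2 G3 G4 G5 G6 : C₀}
    (o1 : InSpan ι₀ q₀.mon (reg {0, 2}) (G1 * xi + G3 * x))
    (o2 : InSpan ι₀ q₀.mon (reg {0, 2}) (G1 * (y * xi) + G4 * x - G2))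
    (o3 : InSpan ι₀ q₀.mon (reg {1, 2}) (G2 * yi + G5 * y))
    (o4 : InSpan ι₀ q₀.mon (reg {1, 2}) (G2 * (x * yi) + G6 * y - G1))
    (o5 : InSpan ι₀ q₀.mon (reg {0, 1}) (G4 * (x * yi) + G6 * (y * xi)))
    (o6 : InSpan ι₀ q₀.mon (reg {0, 1}) (G3 * (x * yi) + G6 * xi - G5)) :
    ∃ th ph : C₀, InSpan ι₀ q₀.mon (reg {2}) (G1 + x * th) ∧
      InSpan ι₀ q₀.mon (reg {2}) (G2 + y * ph) ∧
      InSpan ι₀ q₀.mon (reg {0}) (G3 + xi * (-th)) ∧
      InSpan ι₀ q₀.mon (reg {0}) (G4 + y * xi * (ph - th)) ∧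
      InSpan ι₀ q₀.mon (reg {1}) (G5 + yi * (-ph)) ∧
      InSpan ι₀ q₀.mon (reg {1}) (G6 + x * yi * (th - ph)) := by
  have ex : x * xi = 1 := by rw [hx, hxi, ← Units.val_mul, mul_inv_cancel, Units.val_one]
  have ey : y * yi = 1 := by rw [hy, hyi, ← Units.val_mul, mul_inv_cancel, Units.val_one]
  -- rewriting rules for the shifts
  have s00 : ∀ h : C₀, ((q₀.X ^ (0 : ℤ) : C₀ˣ) : C₀) * ((q₀.Y ^ (0 : ℤ) : C₀ˣ) : C₀) * h = h := by
    intro h; simp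
  have s10 : ∀ h : C₀, ((q₀.X ^ (1 : ℤ) : C₀ˣ) : C₀) * ((q₀.Y ^ (0 : ℤ) : C₀ˣ) : C₀) * h
      = x * h := by
    intro h; simp [hx]
  have s01 : ∀ h : C₀, ((q₀.X ^ (0 : ℤ) : C₀ˣ) : C₀) * ((q₀.Y ^ (1 : ℤ) : C₀ˣ) : C₀) * h
      = y * h := by
    intro h; simp [hy]
  have sm0 : ∀ h : C₀, ((q₀.X ^ (-1 : ℤ) : C₀ˣ) : C₀) * ((q₀.Y ^ (0 : ℤ) : C₀ˣ) : C₀) * h
      = xi * h := by
    intro h; simp [hxi]
  have s0m : ∀ h : C₀, ((q₀.X ^ (0 : ℤ) : C₀ˣ) : C₀) * ((q₀.Y ^ (-1 : ℤ) : C₀ˣ) : C₀) * h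
      = yi * h := by
    intro h; simp [hyi]
  have sm1 : ∀ h : C₀, ((q₀.X ^ (-1 : ℤ) : C₀ˣ) : C₀) * ((q₀.Y ^ (1 : ℤ) : C₀ˣ) : C₀) * h
      = y * xi * h := by
    intro h; simp [hxi, hy]; ring
  have s1m : ∀ h : C₀, ((q₀.X ^ (1 : ℤ) : C₀ˣ) : C₀) * ((q₀.Y ^ (-1 : ℤ) : C₀ˣ) : C₀) * h
      = x * yi * h := by
    intro h; simp [hyi, hx]
  -- local solutions
  set th0 : C₀ := x * G3 with hth0
  set ph0 : C₀ := x * G3 - x * yi * G4 with hph0
  set th1 : C₀ := y * G5 - y * xi * G6 with hth1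
  set ph1 : C₀ := y * G5 with hph1
  set th2 : C₀ := -(xi * G1) with hth2
  set ph2 : C₀ := -(yi * G2) with hph2
  -- overlap conditions in coordinates
  have c1 := (isi hb {0, 2} 0 0 (h := th0 - th2) (by
    rw [s00, hth0, hth2]; ring)).mp o1
  have c2 := (isi hb {0, 2} 0 1 (h := (th0 - th2) - (ph0 - ph2)) (by
    rw [s01, hth0, hth2, hph0, hph2]
    linear_combination (x * G4 - G2) * ey)).mp o2
  have c3 := (isi hb {1, 2} 0 0 (h := ph1 - ph2) (by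
    rw [s00, hph1, hph2]; ring)).mp o3
  have c4 := (isi hb {1, 2} 1 0 (h := (ph1 - ph2) - (th1 - th2)) (by
    rw [s10, hth1, hth2, hph1, hph2]
    linear_combination (y * G6 - G1) * ex)).mp o4
  have c5 := (isi hb {0, 1} 0 0 (h := (th0 - ph0) - (th1 - ph1)) (by
    rw [s00, hth0, hth1, hph0, hph1]; ring)).mp o5
  have c6 := (isi hb {0, 1} 0 (-1) (h := th0 - th1) (by
    rw [s0m, hth0, hth1]
    linear_combination (xi * G6 - G5) * ey)).mp o6
  obtain ⟨a0, b0, a1, b1, a2, b2, h0, h1, h2, k1, k2, k3, k4, k5, k6⟩ := htv k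
    (co hb (th0 - th1)) (co hb (ph0 - ph1)) (co hb (th1 - th2)) (co hb (ph1 - ph2))
    (co hb (th2 - th0)) (co hb (ph2 - ph0))
    (by
      intro s
      have e5 := c5 s 2 (by decide)
      have e6 := c6 s 2 (by decide)
      simp only [co_sub, Finsupp.coe_sub, Pi.sub_apply, sh, Matrix.cons_val, neg_zero,
        sub_neg_eq_add, zero_add, sub_zero, add_zero] at e5 e6 ⊢
      refine ⟨fun hs => ?_, fun hs => ?_⟩
      · have f6 := e6 (by omega)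
        have f5 := e5 (by omega)
        exact ⟨f6, by linear_combination f6 - f5⟩
      · have f5 := e5 (by omega)
        linear_combination f5)
    (by
      intro s
      have e5 := c3 s 0 (by decide)
      have e6 := c4 s 0 (by decide)
      simp only [co_sub, Finsupp.coe_sub, Pi.sub_apply, sh, Matrix.cons_val, neg_zero,
        sub_zero, add_zero] at e5 e6 ⊢
      refine ⟨fun hs => ?_, fun hs => ?_⟩
      · have f6 := e6 (by omega)
        have f5 := e5 (by omega)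
        exact ⟨by linear_combination f5 - f6, f5⟩
      · exact e5 (by omega))
    (by
      intro s
      have e5 := c1 s 1 (by decide)
      have e6 := c2 s 1 (by decide)
      simp only [co_sub, Finsupp.coe_sub, Pi.sub_apply, sh, Matrix.cons_val, neg_zero,
        sub_zero, add_zero] at e5 e6 ⊢
      refine ⟨fun hs => ?_, fun hs => ?_⟩
      · have f6 := e6 (by omega)
        have f5 := e5 (by omega)
        exact ⟨by linear_combination -f5, by linear_combination f6 - f5⟩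
      · have f5 := e5 (by omega)
        linear_combination -f5)
    (by rw [← co_add, ← co_add, ← co_zero hb]; congr 1; ring)
    (by rw [← co_add, ← co_add, ← co_zero hb]; congr 1; ring)
  rw [co_sub] at k1 k2 k3 k4 k5 k6
  -- the corrections
  have l1 : co hb th1 - a1 = co hb th0 - a0 := by
    rw [sub_eq_sub_iff_add_eq_add] at k1 ⊢
    rw [add_comm, ← k1, add_comm]
  have l2 : co hb th2 - a2 = co hb th0 - a0 := by
    rw [sub_eq_sub_iff_add_eq_add] at k5 ⊢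
    rw [k5, add_comm]
  have l3 : co hb ph1 - b1 = co hb ph0 - b0 := by
    rw [sub_eq_sub_iff_add_eq_add] at k2 ⊢
    rw [add_comm, ← k2, add_comm]
  have l4 : co hb ph2 - b2 = co hb ph0 - b0 := by
    rw [sub_eq_sub_iff_add_eq_add] at k6 ⊢
    rw [k6, add_comm]
  set A0 := comb ι₀ q₀.mon a0 with hA0
  set A1 := comb ι₀ q₀.mon a1 with hA1
  set A2 := comb ι₀ q₀.mon a2 with hA2
  set B0 := comb ι₀ q₀.mon b0 with hB0
  set B1 := comb ι₀ q₀.mon b1 with hB1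
  set B2 := comb ι₀ q₀.mon b2 with hB2
  have m1 : th1 - A1 = th0 - A0 := by
    have := congrArg (comb ι₀ q₀.mon) l1
    rwa [comb_sub, comb_sub, comb_co, comb_co] at this
  have m2 : th2 - A2 = th0 - A0 := by
    have := congrArg (comb ι₀ q₀.mon) l2
    rwa [comb_sub, comb_sub, comb_co, comb_co] at this
  have m3 : ph1 - B1 = ph0 - B0 := by
    have := congrArg (comb ι₀ q₀.mon) l3
    rwa [comb_sub, comb_sub, comb_co, comb_co] at this
  have m4 : ph2 - B2 = ph0 - B0 := by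
    have := congrArg (comb ι₀ q₀.mon) l4
    rwa [comb_sub, comb_sub, comb_co, comb_co] at this
  have n1 : co hb (-A2) = -a2 := co_eq hb (by rw [comb_neg])
  have n2 : co hb (-B2) = -b2 := co_eq hb (by rw [comb_neg])
  have n3 : co hb A0 = a0 := co_eq hb rfl
  have n4 : co hb (A0 - B0) = a0 - b0 := co_eq hb (by rw [comb_sub])
  have n5 : co hb B1 = b1 := co_eq hb rfl
  have n6 : co hb (B1 - A1) = b1 - a1 := co_eq hb (by rw [comb_sub])
  refine ⟨th0 - A0, ph0 - B0, ?_, ?_, ?_, ?_, ?_, ?_⟩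
  · rw [← m2]
    refine (isi hb {2} 1 0 (h := -A2) (by
      rw [s10, hth2]; linear_combination G1 * ex)).mpr fun s r hr hlt => ?_
    rw [n1, Finsupp.neg_apply, neg_eq_zero]
    obtain ⟨⟨u1, u2⟩, v1, v2⟩ := h2 s
    fin_cases r
    · simp [sh] at hlt
      exact (u1 (by omega)).1
    · simp [sh] at hlt
      rcases lt_or_ge (expo s 1) (-1) with h | h
      · exact (v1 (by omega)).1
      · exact v2 (by omega)
    · simp at hr
  · rw [← m4]
    refine (isi hb {2} 0 1 (h := -B2) (by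
      rw [s01, hph2]; linear_combination G2 * ey)).mpr fun s r hr hlt => ?_
    rw [n2, Finsupp.neg_apply, neg_eq_zero]
    obtain ⟨⟨u1, u2⟩, v1, v2⟩ := h2 s
    fin_cases r
    · simp [sh] at hlt
      rcases lt_or_ge (expo s 0) (-1) with h | h
      · exact (u1 (by omega)).2
      · exact u2 (by omega)
    · simp [sh] at hlt
      exact (v1 (by omega)).2
    · simp at hr
  · refine (isi hb {0} (-1) 0 (h := A0) (by
      rw [sm0, hth0]; linear_combination G3 * ex)).mpr fun s r hr hlt => ?_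
    rw [n3]
    obtain ⟨⟨u1, u2⟩, v1, v2⟩ := h0 s
    fin_cases r
    · simp at hr
    · simp [sh] at hlt
      rcases lt_or_ge (expo s 1) (-1) with h | h
      · exact (u1 (by omega)).1
      · exact u2 (by omega)
    · simp [sh] at hlt
      exact (v1 (by omega)).1
  · refine (isi hb {0} (-1) 1 (h := A0 - B0) (by
      rw [sm1, hth0, hph0]
      linear_combination G4 * ey + G4 * y * yi * ex)).mpr fun s r hr hlt => ?_
    rw [n4, Finsupp.coe_sub, Pi.sub_apply]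
    obtain ⟨⟨u1, u2⟩, v1, v2⟩ := h0 s
    fin_cases r
    · simp at hr
    · simp [sh] at hlt
      have := u1 (by omega)
      rw [this.1, this.2, sub_zero]
    · simp [sh] at hlt
      rcases lt_or_ge (expo s 2) (-1) with h | h
      · have := v1 (by omega)
        rw [this.1, this.2, sub_zero]
      · rw [v2 (by omega), sub_self]
  · rw [← m3]
    refine (isi hb {1} 0 (-1) (h := B1) (by
      rw [s0m, hph1]; linear_combination G5 * ey)).mpr fun s r hr hlt => ?_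
    rw [n5]
    obtain ⟨⟨u1, u2⟩, v1, v2⟩ := h1 s
    fin_cases r
    · simp [sh] at hlt
      rcases lt_or_ge (expo s 0) (-1) with h | h
      · exact (u1 (by omega)).2
      · exact u2 (by omega)
    · simp at hr
    · simp [sh] at hlt
      exact (v1 (by omega)).2
  · rw [← m1, ← m3]
    refine (isi hb {1} 1 (-1) (h := B1 - A1) (by
      rw [s1m, hth1, hph1]
      linear_combination G6 * ex + G6 * x * xi * ey)).mpr fun s r hr hlt => ?_
    rw [n6, Finsupp.coe_sub, Pi.sub_apply]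
    obtain ⟨⟨u1, u2⟩, v1, v2⟩ := h1 s
    fin_cases r
    · simp [sh] at hlt
      have := u1 (by omega)
      rw [this.1, this.2, sub_zero]
    · simp at hr
    · simp [sh] at hlt
      rcases lt_or_ge (expo s 2) (-1) with h | h
      · have := v1 (by omega)
        rw [this.1, this.2, sub_zero]
      · rw [v2 (by omega), sub_self]

end solve

/-! ## The induction -/

section step

variable {A k C C₀ : Type} [CommRing A] [IsLocalRing A] [IsArtinianRing A] [Field k]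
  [CommRing C] [CommRing C₀] {π : A →+* k} {ι : A →+* C} {B : Finset (Fin 3) → Subring C}
  {ι₀ : k →+* C₀} {q₀ : Quad C₀} {ρ : C →+* C₀}

omit [IsLocalRing A] [IsArtinianRing A] [Field k] in
lemma rho_inv {u : Cˣ} {u₀ : C₀ˣ} (hu : ρ u = u₀) : ρ ((u⁻¹ : Cˣ) : C) = ((u₀⁻¹ : C₀ˣ) : C₀) := by
  have h1 : Units.map ρ.toMonoidHom u = u₀ := Units.ext hu
  have h2 : ρ ((u⁻¹ : Cˣ) : C) = ((Units.map ρ.toMonoidHom u⁻¹ : C₀ˣ) : C₀) := rfl
  rw [h2, map_inv, h1]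

lemma mon_mem {S : Finset (Fin 3)} {c : C₀} (i j : ℤ)
    (hc : ((q₀.X ^ i : C₀ˣ) : C₀) * ((q₀.Y ^ j : C₀ˣ) : C₀) = c)
    (hs : ((i, j, 0) : Idx) ∈ reg S) : InSpan ι₀ q₀.mon (reg S) c := by
  have : q₀.mon (i, j, 0) = c := by
    rw [← hc]
    simp [Quad.mon, Quad.e]
  rw [← this]
  exact InSpan.of_mem hs

lemma base (h : Ctx π ι B ι₀ q₀ ρ) (hred : T_RED) : QQ ι B q₀ ρ (maximalIdeal A) := by
  obtain ⟨r1, -, -, -, -, r6⟩ := hred π ι B ι₀ q₀ ρ h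
  obtain ⟨cx, hcx⟩ := r1 q₀.X
  obtain ⟨cy, hcy⟩ := r1 q₀.Y
  obtain ⟨X, hX⟩ := r6 cx (by rw [hcx]; exact q₀.X.isUnit)
  obtain ⟨Y, hY⟩ := r6 cy (by rw [hcy]; exact q₀.Y.isUnit)
  have hX' : ρ X = q₀.X := by rw [hX, hcx]
  have hY' : ρ Y = q₀.Y := by rw [hY, hcy]
  refine ⟨X, Y, hX', hY', ?_, ?_, ?_, ?_, ?_, ?_⟩
  · refine MJ_max h hred ⟨2, by simp⟩ ?_
    rw [hX']
    refine mon_mem 1 0 (by simp) ?_
    intro r hr
    fin_cases r <;> simp [expo, dg] at hr ⊢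
  · refine MJ_max h hred ⟨2, by simp⟩ ?_
    rw [hY']
    refine mon_mem 0 1 (by simp) ?_
    intro r hr
    fin_cases r <;> simp [expo, dg] at hr ⊢
  · refine MJ_max h hred ⟨0, by simp⟩ ?_
    rw [rho_inv hX']
    refine mon_mem (-1) 0 (by simp) ?_
    intro r hr
    fin_cases r <;> simp [expo, dg] at hr ⊢
  · refine MJ_max h hred ⟨0, by simp⟩ ?_
    rw [map_mul, rho_inv hX', hY']
    refine mon_mem (-1) 1 (by simp; ring) ?_
    intro r hr
    fin_cases r <;> simp [expo, dg] at hr ⊢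
  · refine MJ_max h hred ⟨1, by simp⟩ ?_
    rw [rho_inv hY']
    refine mon_mem 0 (-1) (by simp) ?_
    intro r hr
    fin_cases r <;> simp [expo, dg] at hr ⊢
  · refine MJ_max h hred ⟨1, by simp⟩ ?_
    rw [map_mul, rho_inv hY', hX']
    refine mon_mem 1 (-1) (by simp) ?_
    intro r hr
    fin_cases r <;> simp [expo, dg] at hr ⊢

/-- A unit congruent to `1 + t δ`. -/
lemma unit_exists (h : Ctx π ι B ι₀ q₀ ρ) (hred : T_RED) {J : Ideal A} {t : A}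
    (ht : t ∈ maximalIdeal A) (hm : ∀ m ∈ maximalIdeal A, m * t ∈ J) (δ : C) :
    ∃ u : Cˣ, (u : C) = 1 + ι t * δ ∧ ρ u = 1 ∧
      ((u⁻¹ : Cˣ) : C) - (1 + ι t * (-δ)) ∈ Ideal.map ι J := by
  obtain ⟨-, -, -, -, -, r6⟩ := hred π ι B ι₀ q₀ ρ h
  have h1 : ρ (1 + ι t * δ) = 1 := by
    rw [map_add, map_one, map_mul, rho_t h hred ht, zero_mul, add_zero]
  obtain ⟨u, hu⟩ := r6 (1 + ι t * δ) (by rw [h1]; exact isUnit_one)
  refine ⟨u, hu, by rw [hu, h1], ?_⟩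
  have htt : ι t * ι t ∈ Ideal.map ι J := by
    rw [← map_mul]
    exact Ideal.mem_map_of_mem ι (hm t ht)
  have h2 : (u : C) * ((u⁻¹ : Cˣ) : C) = 1 := by simp
  have h3 : ((u⁻¹ : Cˣ) : C) - (1 + ι t * (-δ)) = (((u⁻¹ : Cˣ) : C) * δ * δ) * (ι t * ι t) := by
    rw [hu] at h2
    linear_combination (1 - ι t * δ) * h2
  rw [h3]
  exact Ideal.mul_mem_left _ _ htt

lemma step (h : Ctx π ι B ι₀ q₀ ρ) (htv : T_TV) (hred : T_RED) (hredt : T_REDT) (J : Ideal A)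
    (t : A) (hJ : J ≤ maximalIdeal A) (ht : t ∈ maximalIdeal A) (htJ : t ∉ J)
    (hm : ∀ m ∈ maximalIdeal A, m * t ∈ J) (hq : QQ ι B q₀ ρ (J ⊔ Ideal.span {t})) :
    QQ ι B q₀ ρ J := by
  obtain ⟨X, Y, hX, hY, q1, q2, q3, q4, q5, q6⟩ := hq
  obtain ⟨g1, e1⟩ := EE_of_MJ h hredt hJ ht htJ hm q1
  obtain ⟨g2, e2⟩ := EE_of_MJ h hredt hJ ht htJ hm q2
  obtain ⟨g3, e3⟩ := EE_of_MJ h hredt hJ ht htJ hm q3
  obtain ⟨g4, e4⟩ := EE_of_MJ h hredt hJ ht htJ hm q4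
  obtain ⟨g5, e5⟩ := EE_of_MJ h hredt hJ ht htJ hm q5
  obtain ⟨g6, e6⟩ := EE_of_MJ h hredt hJ ht htJ hm q6
  have one : ∀ S : Finset (Fin 3), EE ι B J t S 1 0 := fun S =>
    ⟨1, (B S).one_mem, by simp⟩
  have hXi := rho_inv hX
  have hYi := rho_inv hY
  have n0 : ({0} : Finset (Fin 3)).Nonempty := ⟨0, by simp⟩
  have n1 : ({1} : Finset (Fin 3)).Nonempty := ⟨1, by simp⟩
  have n2 : ({2} : Finset (Fin 3)).Nonempty := ⟨2, by simp⟩
  have o1 := overlap h hred hredt hJ ht htJ hm (S := {0, 2}) n2 n0 n0 (by decide) (by decide)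
    (by decide) e1 e3 (one {0}) (by simp)
  have o2 := overlap h hred hredt hJ ht htJ hm (S := {0, 2}) n2 n0 n2 (by decide) (by decide)
    (by decide) e1 e4 e2 (by
      rw [mul_left_comm, Units.mul_inv, mul_one])
  have o3 := overlap h hred hredt hJ ht htJ hm (S := {1, 2}) n2 n1 n1 (by decide) (by decide)
    (by decide) e2 e5 (one {1}) (by simp)
  have o4 := overlap h hred hredt hJ ht htJ hm (S := {1, 2}) n2 n1 n2 (by decide) (by decide)
    (by decide) e2 e6 e1 (by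
      rw [mul_left_comm, Units.mul_inv, mul_one])
  have o5 := overlap h hred hredt hJ ht htJ hm (S := {0, 1}) n0 n1 n1 (by decide) (by decide)
    (by decide) e4 e6 (one {1}) (by
      have a1 : (X : C) * ((X⁻¹ : Cˣ) : C) = 1 := by simp
      have a2 : (Y : C) * ((Y⁻¹ : Cˣ) : C) = 1 := by simp
      linear_combination (Y : C) * ((Y⁻¹ : Cˣ) : C) * a1 + a2)
  have o6 := overlap h hred hredt hJ ht htJ hm (S := {0, 1}) n0 n1 n1 (by decide) (by decide)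
    (by decide) e3 e6 e5 (by
      have a1 : (X : C) * ((X⁻¹ : Cˣ) : C) = 1 := by simp
      linear_combination ((Y⁻¹ : Cˣ) : C) * a1)
  rw [map_mul, hXi, hY] at o2
  rw [hXi, hX, map_zero, sub_zero] at o1
  rw [hX] at o2
  rw [hYi, hY, map_zero, sub_zero] at o3
  rw [map_mul, hYi, hX, hY] at o4
  rw [map_mul, map_mul, hYi, hX, hXi, hY, map_zero, sub_zero] at o5
  rw [map_mul, hYi, hX, hXi] at o6
  obtain ⟨th, ph, p1, p2, p3, p4, p5, p6⟩ := solve h.fr₀ htv rfl rfl rfl rfl o1 o2 o3 o4 o5 o6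
  obtain ⟨r1, -, -, -, -, -⟩ := hred π ι B ι₀ q₀ ρ h
  obtain ⟨θ, hθ⟩ := r1 th
  obtain ⟨φ, hφ⟩ := r1 ph
  obtain ⟨u, hu, hu1, hui⟩ := unit_exists h hred ht hm θ
  obtain ⟨v, hv, hv1, hvi⟩ := unit_exists h hred ht hm φ
  have htt : ι t * ι t ∈ Ideal.map ι J := by
    rw [← map_mul]
    exact Ideal.mem_map_of_mem ι (hm t ht)
  refine ⟨X * u, Y * v, ?_, ?_, ?_, ?_, ?_, ?_, ?_, ?_⟩
  · rw [Units.val_mul, map_mul, hu1, mul_one, hX]
  · rw [Units.val_mul, map_mul, hv1, mul_one, hY]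
  · rw [Units.val_mul]
    refine MJ_mul h hred hredt hJ ht htJ hm n2 e1 (δ := θ) ?_ ?_
    · rw [hu, sub_self]
      exact Ideal.zero_mem _
    · rw [hX, hθ]
      exact p1
  · rw [Units.val_mul]
    refine MJ_mul h hred hredt hJ ht htJ hm n2 e2 (δ := φ) ?_ ?_
    · rw [hv, sub_self]
      exact Ideal.zero_mem _
    · rw [hY, hφ]
      exact p2
  · rw [mul_inv, Units.val_mul]
    refine MJ_mul h hred hredt hJ ht htJ hm n0 e3 (δ := -θ) hui ?_
    rw [hXi, map_neg, hθ]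
    exact p3
  · have : ((Y * v : Cˣ) : C) * (((X * u)⁻¹ : Cˣ) : C)
        = ((Y : C) * ((X⁻¹ : Cˣ) : C)) * ((v : C) * ((u⁻¹ : Cˣ) : C)) := by
      rw [mul_inv, Units.val_mul, Units.val_mul]
      ring
    rw [this]
    refine MJ_mul h hred hredt hJ ht htJ hm n0 e4 (δ := φ - θ) ?_ ?_
    · have e : (v : C) * ((u⁻¹ : Cˣ) : C) - (1 + ι t * (φ - θ))
          = (v : C) * (((u⁻¹ : Cˣ) : C) - (1 + ι t * (-θ))) + (-(φ * θ)) * (ι t * ι t) := by
        rw [hv]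
        ring
      rw [e]
      exact Ideal.add_mem _ (Ideal.mul_mem_left _ _ hui) (Ideal.mul_mem_left _ _ htt)
    · rw [map_mul, hXi, hY, map_sub, hφ, hθ]
      exact p4
  · rw [mul_inv, Units.val_mul]
    refine MJ_mul h hred hredt hJ ht htJ hm n1 e5 (δ := -φ) hvi ?_
    rw [hYi, map_neg, hφ]
    exact p5
  · have : ((X * u : Cˣ) : C) * (((Y * v)⁻¹ : Cˣ) : C)
        = ((X : C) * ((Y⁻¹ : Cˣ) : C)) * ((u : C) * ((v⁻¹ : Cˣ) : C)) := by
      rw [mul_inv, Units.val_mul, Units.val_mul]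
      ring
    rw [this]
    refine MJ_mul h hred hredt hJ ht htJ hm n1 e6 (δ := θ - φ) ?_ ?_
    · have e : (u : C) * ((v⁻¹ : Cˣ) : C) - (1 + ι t * (θ - φ))
          = (u : C) * (((v⁻¹ : Cˣ) : C) - (1 + ι t * (-φ))) + (-(θ * φ)) * (ι t * ι t) := by
        rw [hu]
        ring
      rw [e]
      exact Ideal.add_mem _ (Ideal.mul_mem_left _ _ hvi) (Ideal.mul_mem_left _ _ htt)
    · rw [map_mul, hYi, hX, map_sub, hφ, hθ]
      exact p6

end step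

end PX

/-- The map to the projective plane extends. -/
theorem px (h1 : T_IND) (h2 : T_TV) (h3 : T_RED) (h4 : T_REDT) : T_PX := by
  intro A k C C₀ _ _ _ _ _ _ π ι B ι₀ q₀ ρ h
  have hq : PX.QQ ι B q₀ ρ ⊥ := h1 A (PX.QQ ι B q₀ ρ) (PX.base h h3)
    (fun J t hJ ht htJ hm hq => PX.step h h2 h3 h4 J t hJ ht htJ hm hq)
  have key : ∀ (S : Finset (Fin 3)) (c : C), PX.MJ ι B ⊥ S c → c ∈ B S := by
    rintro S c ⟨b, hb, hcb⟩
    rw [Ideal.map_bot, Ideal.mem_bot, sub_eq_zero] at hcb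
    rw [hcb]
    exact hb
  obtain ⟨X, Y, hX, hY, q1, q2, q3, q4, q5, q6⟩ := hq
  exact ⟨X, Y, hX, hY, key _ _ q1, key _ _ q2, key _ _ q3, key _ _ q4, key _ _ q5, key _ _ q6⟩

end Pool.Agent.H1.CM
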